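import Pool.Agent.X225.Pg.Main

/-! For `n ≥ 5` every automorphism of the path graph of `K_n` is induced by a unique permutation of
the vertices; the automorphism group is the symmetric group. -/

namespace Pool.Agent.Results.MP_89fae5_co.PathGraphAut

open Pool.Agent.X225.Pg

/-- For every `n ≥ 5` the map sending a permutation `σ` of `Fin n` to the automorphism of the path
graph of `K_n` which sends a spanning path to its image under `σ` is a group isomorphism onto the
full automorphism group of the path graph. -/
theorem result (n : ℕ) (hn : 5 ≤ n) :
    ∃ Φ : Equiv.Perm (Fin n) ≃* (pathGraph n ≃g pathGraph n),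
      ∀ (σ : Equiv.Perm (Fin n)) (P : SpanningPath n), (Φ σ P).1 = P.1.image (Sym2.map σ) :=
  ⟨MulEquiv.ofBijective permAut ⟨permAut_injective hn, permAut_surjective hn⟩,
    fun σ P => permAut_apply σ P⟩

end Pool.Agent.Results.MP_89fae5_co.PathGraphAut
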